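import Mathlib
import Pool.Agent.H991R2.TriGrowth

set_option autoImplicit false

open MeasureTheory ProbabilityTheory Filter Topology

namespace Pool.Agent.Results.MP_295da9_pr.PcOneCubicGrowth

/-! ### Definitions used in the statement -/

/-- The Euclidean plane. -/
abbrev Plane : Type := EuclideanSpace ℝ (Fin 2)

/-- `G` is a planar triangulation: it is the graph (1-skeleton) of a locally finite triangulation
of the whole plane by straight triangles.  There are a geometric simplicial complex `K` in the
plane (so any two simplices of `K` meet in a common face or not at all) and an injective placement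
`pos` of the vertices of `G` whose image is the vertex set of `K`, such that two vertices are
adjacent in `G` exactly when they span an edge of `K` (the edge is drawn as the straight segment);
the simplices of `K` cover the plane, and every point of the plane has a neighbourhood which meets
only finitely many of them.  Hence every face of this drawing of `G` is the interior of a triangle
spanned by three pairwise adjacent vertices. -/
def IsPlanarTriangulation {V : Type} (G : SimpleGraph V) : Prop :=
  ∃ (K : Geometry.SimplicialComplex ℝ Plane) (pos : V → Plane),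
    K.space = Set.univ ∧
    (∀ x : Plane, ∃ U ∈ 𝓝 x,
      {s ∈ K.faces | (convexHull ℝ (s : Set Plane) ∩ U).Nonempty}.Finite) ∧
    Function.Injective pos ∧ Set.range pos = K.vertices ∧
    ∀ u v, G.Adj u v ↔ (u ≠ v ∧ {pos u, pos v} ∈ K.faces)

/-- `G` admits uniform volume growth `f`: there are constants `0 < c < C` such that
`c f(n) < |B(v, n)| < C f(n)` for all `n ≥ 1` and all vertices `v`, where `B(v, n)` is the set of
vertices at graph distance at most `n` from `v`. -/
def UniformGrowth {V : Type} (G : SimpleGraph V) (f : ℕ → ℝ) : Prop :=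
  ∃ c C : ℝ, 0 < c ∧ c < C ∧ ∀ n : ℕ, 1 ≤ n → ∀ v : V,
    {w | G.dist v w ≤ n}.Finite ∧
    c * f n < ({w | G.dist v w ≤ n}.ncard : ℝ) ∧ ({w | G.dist v w ≤ n}.ncard : ℝ) < C * f n

/-- The law of Bernoulli site percolation with parameter `p`: the sites are independent, each is
open (`true`) with probability `p`. -/
noncomputable def siteMeasure (V : Type) (p : unitInterval) : Measure (V → Bool) :=
  Measure.infinitePi (fun _ : V => bernoulliMeasure true false p)

/-- The open cluster of the vertex `v`: the vertices that can be reached from `v` by a path of `G`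
all of whose vertices (endpoints included) are open. -/
def cluster {V : Type} (G : SimpleGraph V) (ω : V → Bool) (v : V) : Set V :=
  {w | ∃ q : G.Walk v w, ∀ x ∈ q.support, ω x = true}

/-- `θ(p)`: the probability that `v` lies in an infinite open cluster. -/
noncomputable def theta {V : Type} (G : SimpleGraph V) (v : V) (p : unitInterval) : ℝ :=
  (siteMeasure V p).real {ω | (cluster G ω v).Infinite}

/-- The critical value `p_c = sup {p : θ(p) = 0}`, computed at the vertex `v`. -/
noncomputable def criticalValue {V : Type} (G : SimpleGraph V) (v : V) : ℝ :=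
  sSup {p : ℝ | ∃ h : p ∈ Set.Icc (0 : ℝ) 1, theta G v ⟨p, h⟩ = 0}

/-! ### Proofs -/

open Pool.Agent.H991R2.TriGeom

/-- sigma-algebra generated by the coordinates in `I`. -/
@[reducible] def cs {E : Type} (I : Set E) : MeasurableSpace (E → Bool) :=
  ⨆ i ∈ I, MeasurableSpace.comap (fun ω : E → Bool => ω i) inferInstance

theorem cs_mono {E : Type} {I J : Set E} (h : I ⊆ J) : cs I ≤ cs J :=
  biSup_mono (fun _ hi => h hi)

theorem cs_coord {E : Type} {I : Set E} {e : E} (he : e ∈ I) (b : Bool) :
    MeasurableSet[cs I] {ω : E → Bool | ω e = b} := by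
  have h : MeasurableSpace.comap (fun ω : E → Bool => ω e) inferInstance ≤ cs I :=
    le_iSup₂_of_le e he le_rfl
  apply h
  exact ⟨{b}, MeasurableSet.singleton b, by ext; simp⟩

instance (E : Type) (p : unitInterval) : IsProbabilityMeasure (siteMeasure E p) := by
  unfold siteMeasure; infer_instance

theorem iIndep_coord (E : Type) (p : unitInterval) :
    iIndep (fun i : E => MeasurableSpace.comap (fun ω : E → Bool => ω i) inferInstance)
      (siteMeasure E p) := by
  have := iIndepFun_infinitePi (ι := E) (Ω := fun _ => Bool)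
    (P := fun _ => bernoulliMeasure true false p) (X := fun _ b => b) (by fun_prop)
  exact this

theorem indep_cs {E : Type} (p : unitInterval) {I J : Set E} (h : Disjoint I J) :
    Indep (cs I) (cs J) (siteMeasure E p) :=
  indep_iSup_of_disjoint (fun i => (measurable_pi_apply i).comap_le) (iIndep_coord E p) h

/-- the event that the separating triangle of index `k` has an open vertex -/
def Bk (k : ℕ) : Set (VV → Bool) := {ω | ∃ r : Fin 3, ω (xx k, r) = true}

theorem Bk_compl (k : ℕ) : (Bk k)ᶜ = Set.pi (((Finset.univ : Finset (Fin 3)).image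
    (fun r => ((xx k, r) : VV)) : Finset VV) : Set VV) (fun _ => {false}) := by
  ext ω
  simp only [Bk, Set.mem_compl_iff, Set.mem_ofPred_eq, not_exists, Bool.not_eq_true,
    Set.mem_pi, Finset.coe_image, Finset.coe_univ, Set.image_univ, Set.mem_range,
    Set.mem_singleton_iff, forall_exists_index, forall_apply_eq_imp_iff]

theorem Bk_meas (k : ℕ) : MeasurableSet[cs {a : VV | a.1 = xx k}] (Bk k) := by
  have : Bk k = ⋃ r : Fin 3, {ω : VV → Bool | ω (xx k, r) = true} := by
    ext ω; simp [Bk]
  rw [this]
  refine @MeasurableSet.iUnion _ _ (cs {a : VV | a.1 = xx k}) _ _ fun r => ?_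
  exact cs_coord (I := {a : VV | a.1 = xx k}) (e := ((xx k, r) : VV)) rfl true

theorem measure_Bk (k : ℕ) (p : unitInterval) :
    (siteMeasure VV p).real (Bk k) = 1 - (1 - (p : ℝ)) ^ 3 := by
  have hm : MeasurableSet (Bk k) := by
    have h := Bk_meas k
    have hle : cs {a : VV | a.1 = xx k} ≤ (MeasurableSpace.pi : MeasurableSpace (VV → Bool)) :=
      iSup₂_le fun i _ => (measurable_pi_apply i).comap_le
    exact hle _ h
  have h1 : (siteMeasure VV p).real (Bk k)ᶜ = (1 - (p : ℝ)) ^ 3 := by
    rw [Bk_compl, measureReal_def, siteMeasure, Measure.infinitePi_pi _ (fun _ _ => MeasurableSet.singleton _),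
      Finset.prod_const, ENNReal.toReal_pow, ← measureReal_def]
    rw [Finset.card_image_of_injective _ (by intro a b h; simpa using h)]
    rw [Finset.card_univ, Fintype.card_fin]
    congr 1
    rw [bernoulliMeasure_real_apply_of_notMem_of_mem] <;> simp
  have h2 := probReal_add_probReal_compl (μ := siteMeasure VV p) hm
  linarith

theorem xx_strictMono : StrictMono xx := by
  apply strictMono_nat_of_lt_succ
  intro k
  simp only [xx]
  have : 0 < 8 ^ k := by positivity
  omega

theorem measure_inter (p : unitInterval) (K n : ℕ) :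
    (siteMeasure VV p).real (⋂ k ∈ Finset.range n, Bk (K + k)) = (1 - (1 - (p : ℝ)) ^ 3) ^ n := by
  induction n with
  | zero => simp
  | succ n ih =>
    have e : (⋂ k ∈ Finset.range (n + 1), Bk (K + k)) =
        (⋂ k ∈ Finset.range n, Bk (K + k)) ∩ Bk (K + n) := by
      rw [Finset.range_add_one, Finset.set_biInter_insert, Set.inter_comm]
    rw [e]
    have hA : MeasurableSet[cs {a : VV | a.1 < xx (K + n)}] (⋂ k ∈ Finset.range n, Bk (K + k)) := by
      refine Finset.measurableSet_biInter _ fun k hk => ?_
      refine cs_mono ?_ _ (Bk_meas (K + k))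
      intro a ha
      have : a.1 = xx (K + k) := ha
      show a.1 < xx (K + n)
      rw [this]
      exact xx_strictMono (by have := Finset.mem_range.1 hk; omega)
    have hdisj : Disjoint {a : VV | a.1 < xx (K + n)} {a : VV | a.1 = xx (K + n)} := by
      rw [Set.disjoint_left]
      intro a h1 h2
      have h1' : a.1 < xx (K + n) := h1
      have h2' : a.1 = xx (K + n) := h2
      omega
    have := (Indep_iff _ _ _).1 (indep_cs p hdisj) _ _ hA (Bk_meas (K + n))
    rw [measureReal_def, this, ENNReal.toReal_mul, ← measureReal_def, ← measureReal_def, ih,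
      measure_Bk]
    exact (pow_succ _ _).symm

theorem theta_zero (v : VV) (p : unitInterval) (hp : p < 1) : theta GG v p = 0 := by
  have hp1 : (p : ℝ) < 1 := hp
  have hp0 : (0 : ℝ) ≤ p := p.2.1
  have hq : (1 - (1 - (p : ℝ)) ^ 3) < 1 := by
    have : 0 < (1 - (p : ℝ)) ^ 3 := by
      have : 0 < 1 - (p : ℝ) := by linarith
      positivity
    linarith
  have hq0 : 0 ≤ (1 - (1 - (p : ℝ)) ^ 3) := by
    have : (1 - (p : ℝ)) ^ 3 ≤ 1 := pow_le_one₀ (by linarith) (by linarith)
    linarith
  have hle : ∀ n : ℕ, theta GG v p ≤ (1 - (1 - (p : ℝ)) ^ 3) ^ n := by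
    intro n
    rw [← measure_inter p v.1 n]
    refine measureReal_mono ?_ (measure_ne_top _ _)
    intro ω hω
    simp only [Set.mem_iInter, Finset.mem_range]
    intro k _
    have hv : v.1 < 8 ^ (v.1 + k) := lt_of_lt_of_le (Nat.lt_pow_self (by norm_num))
      (Nat.pow_le_pow_right (by norm_num) (Nat.le_add_right _ _))
    -- the cluster leaves the finite cell
    have hfin : {a : VV | a.1 < 8 ^ (v.1 + k)}.Finite := by
      have : {a : VV | a.1 < 8 ^ (v.1 + k)} = (Set.Iio (8 ^ (v.1 + k))) ×ˢ (Set.univ : Set (Fin 3)) := by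
        ext a; simp
      rw [this]
      exact (Set.finite_Iio _).prod Set.finite_univ
    have hinf : (cluster GG ω v).Infinite := hω
    obtain ⟨w, hw, hw'⟩ := hinf.exists_notMem_finite hfin
    obtain ⟨q, hq⟩ := hw
    obtain ⟨x, hx, hx'⟩ := walk_crosses q hv (not_lt.1 hw')
    refine ⟨x.2, ?_⟩
    rw [← hx']
    exact hq x hx
  have h0 : 0 ≤ theta GG v p := measureReal_nonneg
  have hlim := tendsto_pow_atTop_nhds_zero_of_lt_one hq0 hq
  exact le_antisymm (ge_of_tendsto' hlim hle) h0

theorem criticalValue_one (v : VV) : criticalValue GG v = 1 := by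
  unfold criticalValue
  apply le_antisymm
  · apply csSup_le
    · refine ⟨0, ⟨le_rfl, zero_le_one⟩, theta_zero v _ ?_⟩
      show (0 : ℝ) < 1
      norm_num
    · rintro p ⟨h, _⟩
      exact h.2
  · apply le_of_forall_lt_imp_le_of_dense
    intro a ha
    by_cases h0 : a < 0
    · refine le_trans h0.le (le_csSup ⟨1, ?_⟩ ⟨⟨le_rfl, zero_le_one⟩, theta_zero v _ ?_⟩)
      · rintro p ⟨h, _⟩; exact h.2
      · show (0 : ℝ) < 1
        norm_num
    · refine le_csSup ⟨1, ?_⟩ ⟨⟨not_lt.1 h0, ha.le⟩, theta_zero v _ ha⟩
      rintro p ⟨h, _⟩; exact h.2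

theorem planar : IsPlanarTriangulation GG := by
  refine ⟨KC, pos, ?_, ?_, pos_injective, ?_, ?_⟩
  · rw [Set.eq_univ_iff_forall]
    intro y
    obtain ⟨t, ht, hty⟩ := Tinf_cover y
    rw [Geometry.SimplicialComplex.mem_space_iff]
    refine ⟨t.image pos, ⟨?_, t, ht, subset_rfl⟩, ?_⟩
    · rw [Finset.image_nonempty]
      have := (Tinf_tri ht).1
      rw [← Finset.card_pos]; omega
    · rw [Finset.coe_image, mem_convexHull_iff]; exact hty
  · intro x
    obtain ⟨k, hk⟩ := exists_Uk x
    refine ⟨Uk k, (isOpen_Uk k).mem_nhds hk, ?_⟩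
    refine ((KK_finite k).biUnion (t := fun t => ((t.image pos).powerset : Set (Finset Plane)))
      fun t _ => Finset.finite_toSet _).subset ?_
    rintro s ⟨⟨hne, t, ht, hst⟩, y, hy, hyU⟩
    have hty : H pos t y := by
      rw [← mem_convexHull_iff, ← Finset.coe_image]
      exact convexHull_mono (by exact_mod_cast hst) hy
    simp only [Set.mem_iUnion]
    exact ⟨t, mem_KK_of_meet ht hyU hty, Finset.mem_coe.2 (Finset.mem_powerset.2 hst)⟩
  · ext x
    constructor
    · rintro ⟨v, rfl⟩
      obtain ⟨t, ht, hv, _⟩ := relT v.1 v.2 v.2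
      refine ⟨Finset.singleton_nonempty _, t, ht, ?_⟩
      rw [Finset.singleton_subset_iff]
      exact Finset.mem_image_of_mem _ hv
    · rintro ⟨_, t, ht, hst⟩
      rw [Finset.singleton_subset_iff, Finset.mem_image] at hst
      obtain ⟨v, _, hv⟩ := hst
      exact ⟨v, hv⟩
  · intro u v
    constructor
    · rintro ⟨hne, t, ht, hu, hv⟩
      refine ⟨hne, ⟨_, Finset.mem_insert_self _ _⟩, t, ht, ?_⟩
      intro z hz
      simp only [Finset.mem_insert, Finset.mem_singleton] at hz
      rcases hz with rfl | rfl
      · exact Finset.mem_image_of_mem _ hu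
      · exact Finset.mem_image_of_mem _ hv
    · rintro ⟨hne, _, t, ht, hst⟩
      have h1 : pos u ∈ t.image pos := hst (Finset.mem_insert_self _ _)
      have h2 : pos v ∈ t.image pos := hst (Finset.mem_insert_of_mem (Finset.mem_singleton_self _))
      obtain ⟨u', hu', hu⟩ := Finset.mem_image.1 h1
      obtain ⟨v', hv', hv⟩ := Finset.mem_image.1 h2
      rw [pos_injective hu] at hu'
      rw [pos_injective hv] at hv'
      exact ⟨hne, t, ht, hu', hv'⟩

/-- **Negative answer to Q1.** There is a planar triangulation (a connected, infinite, locally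
finite graph) of uniform volume growth `n ^ 3` for which `θ(p) = 0` for every `p < 1`, i.e. whose
critical value for site percolation is `1`. -/
theorem result : ∃ (V : Type) (G : SimpleGraph V),
    Countable V ∧ Infinite V ∧ G.Connected ∧ (∀ v, (G.neighborSet v).Finite) ∧
    IsPlanarTriangulation G ∧ UniformGrowth G (fun n => (n : ℝ) ^ 3) ∧
    (∀ v : V, ∀ p : unitInterval, p < 1 → theta G v p = 0) ∧
    (∀ v : V, criticalValue G v = 1) := by
  refine ⟨VV, GG, inferInstance, inferInstance, GG_connected, ?_, planar, ?_, theta_zero,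
    criticalValue_one⟩
  · intro v
    refine (ball_finite v 1).subset ?_
    intro w hw
    have hw' : GG.Adj v w := hw
    show GG.dist v w ≤ 1
    rw [SimpleGraph.dist_eq_one_iff_adj.2 hw']
  · exact ⟨1 / 22000, 457, by norm_num, by norm_num, fun n hn v =>
      ⟨ball_finite v n, growth n hn v⟩⟩

end Pool.Agent.Results.MP_295da9_pr.PcOneCubicGrowth
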